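import Mathlib

set_option autoImplicit false

/-!
# A transition edge in a `3^11`-colouring of `H_3(13,3)`
-/

namespace Pool.Agent.Q271.HD

/-- The Hamming-distance graph `H_q(n,d)`: vertices are the words of length `n` over `ℤ/q`, two
different words are adjacent iff their Hamming distance is at least `d`. -/
def HG (q n d : ℕ) : SimpleGraph (Fin n → ZMod q) where
  Adj x y := x ≠ y ∧ d ≤ hammingDist x y
  symm := ⟨fun x y h => ⟨h.1.symm, by rw [hammingDist_comm]; exact h.2⟩⟩
  loopless := ⟨fun x h => h.1 rfl⟩

/-- The edge `xy` is a transition edge for the proper colouring `K`: exchanging the colours of `x`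
and `y` gives again a proper colouring. -/
def IsTransitionEdge {V C : Type*} (G : SimpleGraph V) [DecidableEq V] (K : G.Coloring C)
    (x y : V) : Prop :=
  G.Adj x y ∧ ∀ u v, G.Adj u v → K (Equiv.swap x y u) ≠ K (Equiv.swap x y v)

/-- The thirteen points of the projective plane over `ℤ/3`, the unit vectors last. -/
def col : Fin 13 → Fin 3 → ZMod 3 :=
  ![![0, 1, 1], ![0, 1, 2], ![1, 0, 1], ![1, 0, 2], ![1, 1, 0], ![1, 2, 0], ![1, 1, 1],
    ![1, 1, 2], ![1, 2, 1], ![1, 2, 2], ![1, 0, 0], ![0, 1, 0], ![0, 0, 1]]

lemma cover : ∀ s : Fin 3 → ZMod 3, ∃ (j : Fin 13) (c : ZMod 3), ∀ i, c * col j i = s i := by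
  decide

abbrev W := Fin 13 → ZMod 3

/-- syndrome -/
def synd (x : W) (i : Fin 3) : ZMod 3 := ∑ j, x j * col j i

lemma synd_sub (x y : W) (i : Fin 3) : synd (x - y) i = synd x i - synd y i := by
  unfold synd
  rw [← Finset.sum_sub_distrib]
  refine Finset.sum_congr rfl fun j _ => ?_
  simp [sub_mul]

lemma exists_err (s : Fin 3 → ZMod 3) : ∃ e : W, synd e = s ∧ hammingNorm e ≤ 1 := by
  obtain ⟨j, c, h⟩ := cover s
  refine ⟨Pi.single j c, ?_, ?_⟩
  · funext i
    unfold synd
    rw [Finset.sum_eq_single j]
    · rw [Pi.single_eq_same]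
      exact h i
    · intro b _ hb
      rw [Pi.single_eq_of_ne hb, zero_mul]
    · intro hj
      exact absurd (Finset.mem_univ j) hj
  · unfold hammingNorm
    have : (Finset.univ.filter (fun i => (Pi.single j c : W) i ≠ 0)) ⊆ {j} := by
      intro i hi
      rw [Finset.mem_filter] at hi
      rw [Finset.mem_singleton]
      by_contra hij
      exact hi.2 (Pi.single_eq_of_ne hij _)
    exact (Finset.card_le_card this).trans (by simp)

noncomputable def err (s : Fin 3 → ZMod 3) : W := (exists_err s).choose

lemma err_synd (s : Fin 3 → ZMod 3) : synd (err s) = s := (exists_err s).choose_spec.1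

lemma err_norm (s : Fin 3 → ZMod 3) : hammingNorm (err s) ≤ 1 := (exists_err s).choose_spec.2

/-- nearest codeword -/
noncomputable def dec (x : W) : W := x - err (synd x)

lemma dec_synd (x : W) : synd (dec x) = 0 := by
  funext i
  unfold dec
  rw [synd_sub, err_synd]
  simp

lemma dec_dist (x : W) : hammingDist x (dec x) ≤ 1 := by
  have h : hammingDist x (dec x) = hammingNorm (-dec x + x) := by
    rw [hammingDist_comm]
    exact hammingDist_eq_hammingNorm _ _
  have h2 : -dec x + x = err (synd x) := by
    unfold dec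
    abel
  rw [h, h2]
  exact err_norm _

/-- a codeword is determined by its first ten coordinates -/
lemma code_inj {x y : W} (hx : synd x = 0) (hy : synd y = 0)
    (h : ∀ j : Fin 10, x (Fin.castAdd 3 j) = y (Fin.castAdd 3 j)) : x = y := by
  have hz : ∀ i, synd (x - y) i = 0 := by
    intro i
    rw [synd_sub, hx, hy]
    simp
  have h' : ∀ j : Fin 10, (x - y) (Fin.castAdd 3 j) = 0 := by
    intro j
    rw [Pi.sub_apply, h j, sub_self]
  set z := x - y with hzdef
  have hsum : ∀ i, synd z i = ∑ j : Fin 3, z (Fin.natAdd 10 j) * col (Fin.natAdd 10 j) i := by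
    intro i
    unfold synd
    rw [show (∑ j : Fin 13, z j * col j i) = ∑ j : Fin (10 + 3), z j * col j i from rfl,
      Fin.sum_univ_add]
    rw [Finset.sum_eq_zero (s := Finset.univ) (f := fun j : Fin 10 =>
      z (Fin.castAdd 3 j) * col (Fin.castAdd 3 j) i), zero_add]
    intro j _
    rw [h' j, zero_mul]
  have hcol : ∀ (j i : Fin 3), col (Fin.natAdd 10 j) i = if j = i then 1 else 0 := by decide
  have hz2 : ∀ i : Fin 3, z (Fin.natAdd 10 i) = 0 := by
    intro i
    have h1 := hz i
    rw [hsum i] at h1
    simp only [hcol] at h1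
    simpa using h1
  have hz3 : z = 0 := by
    funext j
    refine Fin.addCases (motive := fun j : Fin (10 + 3) => z j = 0) ?_ ?_ j
    · exact h'
    · exact hz2
  exact sub_eq_zero.mp hz3

/-- the ball colouring -/
noncomputable def info (x : W) : Fin 10 → ZMod 3 := fun j => dec x (Fin.castAdd 3 j)

lemma info_proper {x y : W} (h : info x = info y) : hammingDist x y ≤ 2 := by
  have hd : dec x = dec y := code_inj (dec_synd x) (dec_synd y) (fun j => congrFun h j)
  have h1 := dec_dist x
  have h2 := dec_dist y
  have h3 := hammingDist_triangle x (dec x) y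
  rw [hd, hammingDist_comm (dec y) y] at h3
  rw [hd] at h1
  omega

lemma single_of_norm {e : W} (h : hammingNorm e ≤ 1) : ∃ j c, e = Pi.single j c := by
  by_cases h0 : e = 0
  · exact ⟨0, 0, by rw [h0]; simp⟩
  · obtain ⟨j, hj⟩ := Function.ne_iff.mp h0
    refine ⟨j, e j, ?_⟩
    funext l
    by_cases hl : l = j
    · subst hl
      rw [Pi.single_eq_same]
    · rw [Pi.single_eq_of_ne hl]
      by_contra hne
      unfold hammingNorm at h
      rw [Finset.card_le_one] at h
      exact hl (h l (by simpa using hne) j (by simpa using hj))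

lemma synd_single (j : Fin 13) (c : ZMod 3) (i : Fin 3) :
    synd (Pi.single j c) i = c * col j i := by
  unfold synd
  rw [Finset.sum_eq_single j]
  · rw [Pi.single_eq_same]
  · intro b _ hb
    rw [Pi.single_eq_of_ne hb, zero_mul]
  · intro hj
    exact absurd (Finset.mem_univ j) hj

lemma uniq : ∀ (j : Fin 13) (c l : ZMod 3), (∀ i : Fin 3, c * col j i = l * col 0 i) →
    (c = 0 ∧ l = 0) ∨ (j = 0 ∧ c = l) := by
  decide

lemma synd_add (x y : W) (i : Fin 3) : synd (x + y) i = synd x i + synd y i := by
  unfold synd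
  rw [← Finset.sum_add_distrib]
  refine Finset.sum_congr rfl fun j _ => ?_
  simp [add_mul]

/-- moving a codeword by a multiple of the first unit vector does not change the decoding -/
lemma dec_add {c : W} (hc : synd c = 0) (l : ZMod 3) : dec (c + Pi.single 0 l) = c := by
  have hs : ∀ i, synd (c + Pi.single 0 l) i = l * col 0 i := by
    intro i
    rw [synd_add, hc, synd_single]
    simp
  obtain ⟨j, b, hjb⟩ := single_of_norm (err_norm (synd (c + Pi.single 0 l)))
  have h1 : ∀ i, b * col j i = l * col 0 i := by
    intro i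
    rw [← synd_single, ← hjb, err_synd, hs]
  have h2 : (Pi.single j b : W) = Pi.single 0 l := by
    rcases uniq j b l h1 with ⟨hb, hl⟩ | ⟨hj, hb⟩
    · rw [hb, hl]; simp
    · rw [hj, hb]
  unfold dec
  rw [hjb, h2]
  abel

lemma exists_code (a : Fin 10 → ZMod 3) : ∃ c : W, synd c = 0 ∧
    ∀ j : Fin 10, c (Fin.castAdd 3 j) = a j := by
  refine ⟨(Fin.append a (fun i : Fin 3 => - ∑ j : Fin 10, a j * col (Fin.castAdd 3 j) i) :
    Fin (10 + 3) → ZMod 3), ?_, fun j => by rw [Fin.append_left]⟩
  have hcol : ∀ (j i : Fin 3), col (Fin.natAdd 10 j) i = if j = i then 1 else 0 := by decide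
  funext i
  unfold synd
  rw [show (∑ j : Fin 13, (Fin.append a (fun i : Fin 3 => - ∑ j : Fin 10,
    a j * col (Fin.castAdd 3 j) i) : Fin (10 + 3) → ZMod 3) j * col j i) =
    ∑ j : Fin (10 + 3), (Fin.append a (fun i : Fin 3 => - ∑ j : Fin 10,
    a j * col (Fin.castAdd 3 j) i) : Fin (10 + 3) → ZMod 3) j * col j i from rfl,
    Fin.sum_univ_add]
  simp only [Fin.append_left, Fin.append_right, hcol]
  simp

noncomputable def idx : ((Fin 10 → ZMod 3) × ZMod 3) ≃ Fin (3 ^ (13 - 3 + 1)) :=
  Fintype.equivFinOfCardEq (by simp [ZMod.card])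

/-- the colour of a word -/
noncomputable def kol (x : W) : (Fin 10 → ZMod 3) × ZMod 3 := (info x, x 0 - dec x 0)

lemma kol_proper {x y : W} (h : kol x = kol y) : hammingDist x y ≤ 2 :=
  info_proper (congrArg Prod.fst h)

lemma kol_surj : Function.Surjective kol := by
  rintro ⟨a, l⟩
  obtain ⟨c, hc, hca⟩ := exists_code a
  refine ⟨c + Pi.single 0 l, ?_⟩
  unfold kol info
  rw [dec_add hc l]
  refine Prod.ext ?_ ?_
  · funext j
    exact hca j
  · simp

/-- the words whose error is at the first coordinate have a private colour -/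
lemma kol_private {x u : W} (hx : x 0 - dec x 0 ≠ 0) (h : kol u = kol x) : u = x := by
  have h1 : dec u = dec x :=
    code_inj (dec_synd u) (dec_synd x) (fun j => congrFun (congrArg Prod.fst h) j)
  have h2 : u 0 - dec u 0 = x 0 - dec x 0 := congrArg Prod.snd h
  have key : ∀ v : W, v 0 - dec v 0 ≠ 0 → v = dec v + Pi.single 0 (v 0 - dec v 0) := by
    intro v hv
    obtain ⟨j, b, hjb⟩ := single_of_norm (err_norm (synd v))
    have e1 : v - dec v = Pi.single j b := by
      rw [← hjb]
      unfold dec
      abel
    have e2 : v 0 - dec v 0 = (Pi.single j b : W) 0 := by rw [← e1]; rfl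
    have hj : j = 0 := by
      by_contra hne
      rw [Pi.single_eq_of_ne (Ne.symm hne)] at e2
      exact hv e2
    subst hj
    rw [Pi.single_eq_same] at e2
    rw [e2, ← e1]
    abel
  rw [key u (by rw [h2]; exact hx), key x hx, h1, ← h2, h1]

theorem main : ∃ (K : (HG 3 13 3).Coloring (Fin (3 ^ (13 - 3 + 1)))) (x y : Fin 13 → ZMod 3),
    Function.Surjective K ∧ IsTransitionEdge (HG 3 13 3) K x y := by
  -- a nonzero codeword, its distance from `0` is at least `3`
  obtain ⟨c, hc, hca⟩ := exists_code 1
  have z0 : synd (0 : W) = 0 := by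
    funext i
    simp [synd]
  have ed : ∀ d : W, synd d = 0 → (d + Pi.single 0 1 : W) 0 - dec (d + Pi.single 0 1) 0 ≠ 0 := by
    intro d hd
    rw [dec_add hd, Pi.add_apply, Pi.single_eq_same]
    simp
  have hx := ed 0 z0
  have hy := ed c hc
  have hdist : 3 ≤ hammingDist (0 + Pi.single 0 1 : W) (c + Pi.single 0 1) := by
    unfold hammingDist
    refine le_trans ?_ (Finset.card_le_card
      (s := Finset.univ.image (Fin.castAdd 3 : Fin 10 → Fin 13)) ?_)
    · rw [Finset.card_image_of_injective _ (Fin.castAdd_injective 10 3)]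
      simp
    · intro i hi
      obtain ⟨j, -, rfl⟩ := Finset.mem_image.mp hi
      rw [Finset.mem_filter]
      refine ⟨Finset.mem_univ _, ?_⟩
      rw [Pi.add_apply, Pi.add_apply, hca j]
      simp
  refine ⟨SimpleGraph.Coloring.mk (fun x => idx (kol x)) ?_, 0 + Pi.single 0 1,
    c + Pi.single 0 1, ?_, ⟨?_, hdist⟩, ?_⟩
  · intro u v huv h
    have h1 := kol_proper (idx.injective h)
    have := huv.2
    omega
  · exact idx.surjective.comp kol_surj
  · intro he
    rw [he] at hdist
    simp at hdist
  · intro u v huv h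
    set x : W := 0 + Pi.single 0 1
    set y : W := c + Pi.single 0 1
    have h1 : kol (Equiv.swap x y u) = kol (Equiv.swap x y v) := idx.injective h
    have px : ∀ w, kol w = kol x → w = x := fun w hw => kol_private hx hw
    have py : ∀ w, kol w = kol y → w = y := fun w hw => kol_private hy hw
    have hne : ∀ w, w ≠ x → w ≠ y → Equiv.swap x y w = w := fun w h0 h1 =>
      Equiv.swap_apply_of_ne_of_ne h0 h1
    by_cases hu : Equiv.swap x y u = x
    · rw [hu] at h1
      have h2 := px _ h1.symm
      exact huv.1 ((Equiv.swap x y).injective (hu.trans h2.symm))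
    · by_cases hu' : Equiv.swap x y u = y
      · rw [hu'] at h1
        have h2 := py _ h1.symm
        exact huv.1 ((Equiv.swap x y).injective (hu'.trans h2.symm))
      · have hv : Equiv.swap x y v ≠ x := by
          intro hv
          rw [hv] at h1
          exact hu (px _ h1)
        have hv' : Equiv.swap x y v ≠ y := by
          intro hv
          rw [hv] at h1
          exact hu' (py _ h1)
        have e1 : Equiv.swap x y u = u := by
          have := hne _ hu hu'
          rwa [Equiv.swap_apply_self, eq_comm] at this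
        have e2 : Equiv.swap x y v = v := by
          have := hne _ hv hv'
          rwa [Equiv.swap_apply_self, eq_comm] at this
        rw [e1, e2] at h1
        have h3 := kol_proper h1
        have := huv.2
        omega

end Pool.Agent.Q271.HD
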